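import Pool.Agent.MWV.Stmts

/-!
# Row STR of the table mwv
-/

namespace Pool.Agent.MWV.H80

open Pool.Agent.Helper14_MV Pool.Agent.Helper2_MV

theorem im_append (N : ℕ) (f : ℕ → List ℕ) (u v : List ℕ) :
    im N f (u ++ v) = im N f u ++ im N f v := by
  unfold im
  rw [List.flatMap_append]

theorem im_cons (N : ℕ) (f : ℕ → List ℕ) (a : ℕ) (v : List ℕ) :
    im N f (a :: v) =
      (if a % 3 = 0 then (List.replicate (N + 1) (f a)).flatten else f a) ++ im N f v := by
  unfold im
  rw [List.flatMap_cons]

theorem filter_rep (r : ℕ → Bool) (n : ℕ) (u : List ℕ) :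
    ((List.replicate n u).flatten).filter r = (List.replicate n (u.filter r)).flatten := by
  induction n with
  | zero => rfl
  | succ n ih =>
    rw [List.replicate_succ, List.flatten_cons, List.filter_append, ih, List.replicate_succ,
      List.flatten_cons]

theorem im_filter (N : ℕ) (f : ℕ → List ℕ) (r : ℕ → Bool) (L : List ℕ) :
    (im N f L).filter r = im N (fun a => (f a).filter r) L := by
  induction L with
  | nil => rfl
  | cons a L ih =>
    rw [im_cons, im_cons, List.filter_append, ih]
    by_cases h : a % 3 = 0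
    · rw [if_pos h, if_pos h, filter_rep]
    · rw [if_neg h, if_neg h]

theorem im_rep (N : ℕ) (f : ℕ → List ℕ) (m n : ℕ) (hm : m % 3 = 0) :
    im N f (List.replicate n m) =
      (List.replicate n ((List.replicate (N + 1) (f m)).flatten)).flatten := by
  induction n with
  | zero => rfl
  | succ n ih =>
    rw [List.replicate_succ, im_cons, if_pos hm, ih]
    generalize (List.replicate (N + 1) (f m)).flatten = T
    rw [List.replicate_succ, List.flatten_cons]

theorem mem_rep (n : ℕ) (u : List ℕ) (a : ℕ) (hn : 1 ≤ n) :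
    a ∈ (List.replicate n u).flatten ↔ a ∈ u := by
  rw [List.mem_flatten]
  constructor
  · rintro ⟨l, hl, ha⟩
    rw [List.eq_of_mem_replicate hl] at ha
    exact ha
  · intro ha
    exact ⟨u, by rw [List.mem_replicate]; exact ⟨by omega, rfl⟩, ha⟩

theorem count_rep (n : ℕ) (u : List ℕ) (a : ℕ) :
    ((List.replicate n u).flatten).count a = n * u.count a := by
  induction n with
  | zero => simp
  | succ n ih =>
    rw [List.replicate_succ, List.flatten_cons, List.count_append, ih]
    ring

theorem mem_imX (N : ℕ) (f : ℕ → List ℕ) (m : ℕ) (hN : 1 ≤ N) (hm : m % 3 = 0) (a : ℕ) :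
    a ∈ im N f (X N m) ↔ a ∈ f m := by
  unfold X
  rw [im_rep N f m N hm, mem_rep _ _ _ hN, mem_rep _ _ _ (by omega)]

theorem count_imX (N : ℕ) (f : ℕ → List ℕ) (m : ℕ) (hm : m % 3 = 0) (a : ℕ) :
    (im N f (X N m)).count a % N = 0 := by
  unfold X
  rw [im_rep N f m N hm, count_rep]
  exact Nat.mul_mod_right _ _

theorem lgt_append (u v : List ℕ) : lgt (u ++ v) = lgt u ++ lgt v := by
  unfold lgt
  rw [List.filter_append]

theorem lgt_heavy (u : List ℕ) (h : ∀ a ∈ u, a % 3 = 0) : lgt u = [] := by
  unfold lgt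
  rw [List.filter_eq_nil_iff]
  intro a ha
  simp [h a ha]

theorem Ib_nil {w u v : List ℕ} (h : Ib w u v) (hw : w = []) : u = v := by
  induction h with
  | nil => rfl
  | cons a _ ih => rw [ih]
  | ins _ ih =>
    rw [hw, ih]
    rfl

/-- the common part of the rows STS, STT, STR -/
theorem core (hPPM : PpmStmt) (hLBK : LbkStmt) (hDCB : DcbStmt) (hFRM : FrmStmt)
    (hMRK : MrkStmt) (hCOV : CovStmt) (hGTR : GtrStmt) (hGST : GstStmt) (hCLN : ClnStmt)
    (N : ℕ) (S : List ℕ → List ℕ → Prop) (P Q : List ℕ) (g : ℕ → Bool) (k : ℕ)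
    (H : Hyp N S P Q g k) (d m : ℕ) (hd : d ≤ 1) (hm : m % 3 = 0) (f : ℕ → List ℕ)
    (p q α γ μ1 μ2 : List ℕ) (hne : f m ≠ [])
    (hIb : Ib (im N f (X N m)) (im N f μ1) (im N f μ2))
    (μ : List ℕ) (hμ : μ = μ1 ∨ μ = μ2)
    (hcase : ∀ α1 γ1, Fr N f (PP k P) (PP k Q) m μ α1 γ1 →
      S (Wb N P Q g k d) (W (PP k P) (PP k Q)
        (α1 ++ (im N f (X N m) ++ (im N f μ ++ (im N f (X N m) ++ γ1))))) →
      (∀ a ∈ im N f α, a % 3 = 0 → a ∈ α1) → (∀ a ∈ im N f γ, a % 3 = 0 → a ∈ γ1) →
      (∀ i, d ≤ i → i ≤ k + 1 + d → 3 * i + 1 ∈ im N f μ) → False)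
    (hS : S (Wb N P Q g k d)
      (p ++ (im N f (W (PP k P) (PP k Q) (α ++ (X N m ++ (μ ++ (X N m ++ γ))))) ++ q))) :
    S (p ++ (im N f (W (PP k P) (PP k Q) (α ++ (X N m ++ (μ1 ++ (X N m ++ γ))))) ++ q))
      (p ++ (im N f (W (PP k P) (PP k Q) (α ++ (X N m ++ (μ2 ++ (X N m ++ γ))))) ++ q)) := by
  have hN := H.wo.pos
  obtain ⟨L1, hL1, hOk, hmem⟩ := hDCB N S P Q g k d _ H hd hS
  obtain ⟨hperm, -, -, -⟩ := hPPM k P Q H.kp H.pm
  have hnd : (PP k P ++ PP k Q).Nodup := hperm.nodup_iff.mpr List.nodup_range
  obtain ⟨α1, γ1, hFr, hL, hα, hγ, hA, hB⟩ := hFRM N f (PP k P) (PP k Q) m μ α γ p q L1 hN hnd hm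
    hne hOk hL1
  have hSL : S (Wb N P Q g k d) (W (PP k P) (PP k Q) L1) := by
    rw [← hL1]
    exact hS
  have hw0h : ∀ a ∈ im N f (X N m), a % 3 = 0 := by
    intro a ha
    exact hFr.hf a ((mem_imX N f m hN hm a).1 ha)
  have hcnt : ∀ a, (im N f (X N m)).count a % N = 0 := fun a => count_imX N f m hm a
  have key : ∀ μ', p ++ (im N f (W (PP k P) (PP k Q)
      (α ++ (X N m ++ (μ' ++ (X N m ++ γ))))) ++ q) =
      (pl (PP k P) ++ 2 :: α1) ++ (im N f (X N m) ++ (im N f μ' ++ (im N f (X N m) ++
        (γ1 ++ 5 :: pr (PP k Q))))) := by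
    intro μ'
    rw [← hA, ← hB]
    unfold W
    rw [im_append, im_cons, if_neg (by norm_num : ¬ 2 % 3 = 0), im_append, im_append, im_append,
      im_append, im_append, im_cons, if_neg (by norm_num : ¬ 5 % 3 = 0)]
    simp only [List.append_assoc]
  have hGd : ∀ h ∈ f m, Gd N S k (pl (PP k P) ++ 2 :: α1) (γ1 ++ 5 :: pr (PP k Q)) h
      (im N f μ) := by
    intro h hh
    have hhw : h ∈ im N f (X N m) := (mem_imX N f m hN hm h).2 hh
    obtain ⟨x1, x2, hx⟩ := List.append_of_mem hhw
    have hx1 : ∀ a ∈ x1, a % 3 = 0 := by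
      intro a ha
      apply hw0h a
      rw [hx]
      simp [ha]
    have hx2 : ∀ a ∈ x2, a % 3 = 0 := by
      intro a ha
      apply hw0h a
      rw [hx]
      simp [ha]
    have hsplit : L1 = (α1 ++ x1) ++ h :: ((x2 ++ (im N f μ ++ x1)) ++ h :: (x2 ++ γ1)) := by
      rw [hL, hx]
      simp only [List.append_assoc, List.cons_append]
    have hin : h ∈ Lb N g k d := (hmem h).1 (by rw [hsplit]; simp)
    obtain ⟨-, hbk, -⟩ := hLBK N g k d P Q hN H.kp hd H.pm
    have hcas := (hbk h (hw0h h hhw)).1 hin
    have hgtr : Gd N S k (pl (PP k P) ++ 2 :: (α1 ++ x1)) ((x2 ++ γ1) ++ 5 :: pr (PP k Q)) h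
        (x2 ++ (im N f μ ++ x1)) → Gd N S k (pl (PP k P) ++ 2 :: α1) (γ1 ++ 5 :: pr (PP k Q)) h
          (im N f μ) := by
      apply hGTR N S k _ _ _ _ h x2 _ x1
      · intro a ha h3
        simp only [List.mem_append, List.mem_cons] at ha ⊢
        rcases ha with ha | ha | ha | ha
        · exact Or.inl ha
        · exact Or.inr (Or.inl ha)
        · exact Or.inr (Or.inr ha)
        · exact absurd (hx1 a ha) h3
      · intro a ha h3
        simp only [List.mem_append, List.mem_cons] at ha ⊢
        rcases ha with (ha | ha) | ha | ha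
        · exact absurd (hx2 a ha) h3
        · exact Or.inl ha
        · exact Or.inr (Or.inl ha)
        · exact Or.inr (Or.inr ha)
      · intro a ha
        rcases List.mem_append.1 ha with ha | ha
        · exact hx2 a ha
        · exact hx1 a ha
    rcases hcas with h3d | ⟨j, hj1, hj2, hgj, hj3⟩
    · by_cases hle : (lgt (im N f μ)).length ≤ k
      · left
        refine ⟨hle, ?_, ?_⟩
        · have hsub : (lgt (im N f μ)).Sublist L1 := by
            have h1 : (lgt (im N f μ)).Sublist (im N f μ) := List.filter_sublist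
            have h2 : (im N f μ).Sublist L1 := by
              rw [hL]
              refine List.Sublist.trans ?_ (List.sublist_append_right _ _)
              refine List.Sublist.trans ?_ (List.sublist_append_right _ _)
              exact List.sublist_append_left _ _
            exact h1.trans h2
          rw [List.nodup_iff_count_le_one]
          intro a
          by_cases ha : a ∈ lgt (im N f μ)
          · have ha3 : a % 3 ≠ 0 := by
              unfold lgt at ha
              rw [List.mem_filter] at ha
              simpa using ha.2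
            have haL := hsub.subset ha
            rcases hOk.mem a haL with h0 | ⟨e, he, rfl⟩
            · exact absurd h0 ha3
            · have := hOk.one e he
              have h5 := hsub.count_le (3 * e + 1)
              omega
          · rw [List.count_eq_zero_of_not_mem ha]
            omega
        · intro c hc hc3
          have hcL : c ∈ L1 := by
            rw [hL]
            simp only [List.mem_append]
            exact Or.inr (Or.inr (Or.inl hc))
          rcases hOk.mem c hcL with h0 | ⟨e, he, rfl⟩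
          · exact absurd h0 hc3
          · rcases List.mem_append.1 he with he | he
            · left
              rw [List.mem_append]
              left
              unfold pl
              rw [List.mem_flatMap]
              exact ⟨e, he, by simp⟩
            · right
              rw [List.mem_append, List.mem_cons]
              right
              right
              unfold pr
              rw [List.mem_flatMap]
              exact ⟨e, he, by simp⟩
      · exfalso
        have hcov := hCOV N S P Q g k d (α1 ++ x1) (x2 ++ (im N f μ ++ x1)) (x2 ++ γ1) H hd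
          (by rw [← h3d, ← hsplit]; exact hSL)
          (by rw [lgt_append, lgt_append, lgt_heavy x1 hx1, lgt_heavy x2 hx2, List.nil_append,
                List.append_nil]
              omega)
        apply hcase α1 γ1 hFr (by rw [← hL]; exact hSL) hα hγ
        intro i hi1 hi2
        have h6 := hcov i hi1 hi2
        rw [List.mem_append, List.mem_append] at h6
        rcases h6 with h6 | h6 | h6
        · have := hx2 _ h6
          omega
        · exact h6
        · have := hx1 _ h6
          omega
    · apply hgtr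
      rw [hj3]
      exact hMRK N S P Q g k d j _ _ _ H hd hj1 hj2 hgj (by rw [← hj3, ← hsplit]; exact hSL)
  rw [key, key]
  rcases hμ with rfl | rfl
  · exact hCLN N S H.wo k H.fr _ _ _ _ _ _ hw0h (fun a ha => ha) hcnt hIb
      (fun h hh => hGd h ((mem_imX N f m hN hm h).1 hh))
  · exact hCLN N S H.wo k H.fr _ _ _ _ _ _ hw0h (fun a ha => ha) hcnt hIb
      (fun h hh => (hGST N S k _ _ h _ _ _ hIb hw0h hcnt).2
        (hGd h ((mem_imX N f m hN hm h).1 hh)))

theorem filt_one (u : List ℕ) (c : ℕ) (h : u.filter (fun a => decide (a ≠ 3)) = [c]) :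
    ∃ a b, u = X a 3 ++ c :: X b 3 := by
  induction u with
  | nil => simp at h
  | cons x u ih =>
    by_cases hx : x = 3
    · subst hx
      rw [List.filter_cons_of_neg (by simp)] at h
      obtain ⟨a, b, hab⟩ := ih h
      refine ⟨a + 1, b, ?_⟩
      rw [hab]
      unfold X
      rw [List.replicate_succ]
      rfl
    · rw [List.filter_cons_of_pos (by simp [hx])] at h
      injection h with h1 h2
      refine ⟨0, u.length, ?_⟩
      subst h1
      unfold X
      rw [List.replicate_zero, List.nil_append]
      congr 1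
      rw [List.eq_replicate_iff]
      refine ⟨rfl, ?_⟩
      intro b hb
      rw [List.filter_eq_nil_iff] at h2
      have := h2 b hb
      simpa using this

theorem filt_zero (a b c : ℕ) (hc : c ≠ 0) :
    (X a 3 ++ c :: X b 3).filter (fun a => decide (a ≠ 0)) = X a 3 ++ c :: X b 3 := by
  rw [List.filter_eq_self]
  intro x hx
  rw [List.mem_append, List.mem_cons] at hx
  rcases hx with hx | hx | hx
  · rw [List.eq_of_mem_replicate hx]
    simp
  · rw [hx]
    simp [hc]
  · rw [List.eq_of_mem_replicate hx]
    simp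

theorem str (hPPM : PpmStmt) (hLBK : LbkStmt) (hDCB : DcbStmt) (hFRM : FrmStmt)
    (hMRK : MrkStmt) (hCOV : CovStmt) (hRH1 : Rh1Stmt) (hRH2 : Rh2Stmt) (hGTR : GtrStmt)
    (hGST : GstStmt) (hCLN : ClnStmt) (hIBM : IbmStmt) : StrStmt := by
  intro N S P Q g k f p q V1 V2 H hV1 hV2 hS
  have hN := H.wo.pos
  have filt : ∀ (r : ℕ → Bool) (L : List ℕ), (p ++ (im N f L ++ q)).filter r =
      p.filter r ++ (im N (fun a => (f a).filter r) L ++ q.filter r) := by
    intro r L
    rw [List.filter_append, List.filter_append, im_filter]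
  have hLp : ∀ s, Lp N g s k = [] ++ (X N 0 ++ ((1 :: (X N 3 ++ cr g s 1 k)) ++ (X N 0 ++
      (3 * (k + 2) + 1) :: X N 3))) := by
    intro s
    unfold Lp
    simp only [List.nil_append, List.append_assoc, List.cons_append]
  have hIb : Ib (im N (fun a => (f a).filter (fun a => decide (a ≠ 3))) (X N 0))
      (im N (fun a => (f a).filter (fun a => decide (a ≠ 3)))
        (1 :: (X N 3 ++ cr g (X N 3) 1 k)))
      (im N (fun a => (f a).filter (fun a => decide (a ≠ 3)))
        (1 :: (X N 3 ++ cr g (X N 0 ++ X N 3) 1 k))) := by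
    have h1 := hIBM N (fun a => (f a).filter (fun a => decide (a ≠ 3))) g 0 k 1 [] (X N 3)
      (1 :: X N 3) []
    simpa only [List.nil_append, List.append_nil, List.cons_append] using h1
  have main : ∀ s', (s' = X N 3 ∨ s' = X N 0 ++ X N 3) →
      S (Wb N P Q g k 0) ((p ++ (im N f (W (PP k P) (PP k Q) (Lp N g s' k)) ++ q)).filter
        (fun a => decide (a ≠ 3))) →
      S (Wb N P Q g k 1) ((p ++ (im N f (W (PP k P) (PP k Q) (Lp N g s' k)) ++ q)).filter
        (fun a => decide (a ≠ 0))) →
      S (V1.filter (fun a => decide (a ≠ 3))) (V2.filter (fun a => decide (a ≠ 3))) := by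
    intro s' hs' h0 h1
    have hs3 : 3 ∈ s' := by
      have h3 : 3 ∈ X N 3 := by
        unfold X
        rw [List.mem_replicate]
        exact ⟨by omega, rfl⟩
      rcases hs' with rfl | rfl
      · exact h3
      · exact List.mem_append_right _ h3
    have hsh : ∀ a ∈ s', a % 3 = 0 := by
      have h3 : ∀ a ∈ X N 3, a % 3 = 0 := by
        intro a ha
        rw [List.eq_of_mem_replicate ha]
      have h4 : ∀ a ∈ X N 0, a % 3 = 0 := by
        intro a ha
        rw [List.eq_of_mem_replicate ha]
      rcases hs' with rfl | rfl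
      · exact h3
      · intro a ha
        rcases List.mem_append.1 ha with ha | ha
        · exact h4 a ha
        · exact h3 a ha
    rw [filt, hLp] at h0
    rw [hV1, hV2, filt, filt, hLp, hLp]
    by_cases hne : (f 0).filter (fun a => decide (a ≠ 3)) = []
    · have hw : im N (fun a => (f a).filter (fun a => decide (a ≠ 3))) (X N 0) = [] := by
        rw [List.eq_nil_iff_forall_not_mem]
        intro a ha
        rw [mem_imX N _ 0 hN rfl] at ha
        simp only [hne] at ha
        exact List.not_mem_nil ha
      have heq := Ib_nil hIb hw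
      have hun : ∀ μ' : List ℕ, im N (fun a => (f a).filter (fun a => decide (a ≠ 3)))
          (W (PP k P) (PP k Q) ([] ++ (X N 0 ++ (μ' ++ (X N 0 ++ (3 * (k + 2) + 1) :: X N 3))))) =
          im N (fun a => (f a).filter (fun a => decide (a ≠ 3))) (pl (PP k P) ++ 2 :: X N 0) ++
          (im N (fun a => (f a).filter (fun a => decide (a ≠ 3))) μ' ++
          im N (fun a => (f a).filter (fun a => decide (a ≠ 3)))
            ((X N 0 ++ (3 * (k + 2) + 1) :: X N 3) ++ 5 :: pr (PP k Q))) := by
        intro μ'
        rw [← im_append, ← im_append]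
        unfold W
        simp only [List.nil_append, List.append_assoc, List.cons_append]
      rw [hun, hun, heq]
      exact H.wo.refl _
    · refine core hPPM hLBK hDCB hFRM hMRK hCOV hGTR hGST hCLN N S P Q g k H 0 0 (by omega) rfl _
        _ _ _ _ _ _ hne hIb (1 :: (X N 3 ++ cr g s' 1 k)) ?_ ?_ h0
      · rcases hs' with rfl | rfl
        · exact Or.inl rfl
        · exact Or.inr rfl
      · intro α1 γ1 hFr hSL _ _ hall
        obtain ⟨ha, hb, hc⟩ := hRH1 N S P Q g k _ s' α1 γ1 H hsh hFr hSL
          (fun i hi => hall i (by omega) (by omega))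
        have aux : ∀ c, c ≠ 0 → (f c).filter (fun a => decide (a ≠ 3)) = [c] →
            ∃ a b, (f c).filter (fun a => decide (a ≠ 0)) = X a 3 ++ c :: X b 3 := by
          intro c hc0 hfc
          obtain ⟨a, b, hab⟩ := filt_one _ _ hfc
          refine ⟨a, b, ?_⟩
          rw [hab, filt_zero _ _ _ hc0]
        rw [filt] at h1
        exact hRH2 N S P Q g k (fun a => (f a).filter (fun a => decide (a ≠ 0))) _ _ s' H hsh hs3
          (aux 1 (by omega) ha) (aux 4 (by omega) hb) (aux _ (by omega) hc) h1
  rcases hS with ⟨h0, h1⟩ | ⟨h0, h1⟩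
  · rw [hV1] at h0 h1
    exact main _ (Or.inl rfl) h0 h1
  · rw [hV2] at h0 h1
    exact main _ (Or.inr rfl) h0 h1

end Pool.Agent.MWV.H80
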